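import Mathlib.Probability.IdentDistrib
import Pool.Agent.MP_1479fb_pr.SG.Main

set_option autoImplicit false
open MeasureTheory ProbabilityTheory Filter Topology

namespace Pool.Agent.Results.MP_1479fb_pr.SharpGrowth

open Pool.Agent.MP_1479fb_pr in
/-- The exact range of linear growth of greedy lattice paths. For an i.i.d. real field on `ℤ^d`,
`d ≥ 2`, with an arbitrary law, `M n / n` tends almost surely to a finite constant if
`J = ∫ t^((d-1)/(d+1)) P(X > t)^(2/(d+1)) dt` is finite, and to `+∞` otherwise. -/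
theorem result :
    ∀ (d : ℕ), 2 ≤ d →
    ∀ (Ω : Type) [MeasurableSpace Ω] (P : Measure Ω) [IsProbabilityMeasure P]
      (X : (Fin d → ℤ) → Ω → ℝ),
      (∀ v, Measurable (X v)) →
      iIndepFun X P →
      (∀ v, IdentDistrib (X v) (X 0) P P) →
      ∀ M : ℕ → Ω → ℝ,
      (∀ n ω, M n ω =
        ⨆ p : {p : Fin (n + 1) → (Fin d → ℤ) //
            p 0 = 0 ∧ Function.Injective p ∧
            ∀ i : Fin n, ∑ j, |p i.succ j - p i.castSucc j| = 1},
          ∑ i : Fin n, X (p.1 i.succ) ω) →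
      ∀ J : ENNReal,
      J = ∫⁻ t in Set.Ioi (0 : ℝ), ENNReal.ofReal (t ^ (((d : ℝ) - 1) / ((d : ℝ) + 1)) *
        (P {ω | t < X 0 ω}).toReal ^ ((2 : ℝ) / ((d : ℝ) + 1))) →
      (J < ⊤ → ∃ c : ℝ, ∀ᵐ ω ∂P, Tendsto (fun n : ℕ => M n ω / (n : ℝ)) atTop (𝓝 c)) ∧
      (J = ⊤ → ∀ᵐ ω ∂P, Tendsto (fun n : ℕ => M n ω / (n : ℝ)) atTop atTop) := by
  intro d hd Ω _ P _ X hX hind hid M hM J hJ
  have : IsProbabilityMeasure (P.map (X 0)) := Measure.isProbabilityMeasure_map (hX 0).aemeasurable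
  have hlaw : P.map (fun ω v => X v ω) =
      Measure.infinitePi (fun _ : Fin d → ℤ => P.map (X 0)) := by
    rw [hind.map_fun_eq_infinitePi_map hX]
    congr 1
    exact funext fun v => (hid v).map_eq
  obtain ⟨a, ha, hs⟩ := SG.serS d (by omega) (P.map (X 0))
  have e : ∀ t : ℝ, (P.map (X 0)).real (Set.Ioi t) = (P {ω | t < X 0 ω}).toReal := fun t => by
    rw [Measure.real, Measure.map_apply (hX 0) measurableSet_Ioi]
    rfl
  simp only [e] at hs
  rw [← hJ] at hs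
  have hM' : ∀ n ω, M n ω = Mx n (fun v => X v ω) := fun n ω => by
    rw [hM, ← iSup_eq_Mx]
  simp only [hM']
  refine ⟨fun h => ?_, fun h => ?_⟩
  · obtain ⟨c, hc⟩ := canonical_lln (P.map (X 0)) hd (SG.upper d hd _ a ha (hs.2 h))
    rw [← hlaw] at hc
    exact ⟨c, ae_of_ae_map (measurable_pi_lambda _ hX).aemeasurable hc⟩
  · have hc := SG.lower d hd _ a ha (fun t => (hs.1 t).ne h)
    rw [SG.Pm, ← hlaw] at hc
    exact ae_of_ae_map (measurable_pi_lambda _ hX).aemeasurable hc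

open Pool.Agent.MP_1479fb_pr in
/-- A logarithmic moment of order `(d - 1) / 2 + α` makes the integral finite. -/
theorem moment (d : ℕ) (hd : 2 ≤ d) (Ω : Type) [MeasurableSpace Ω] (P : Measure Ω)
    [IsProbabilityMeasure P] (Y : Ω → ℝ) (hY : Measurable Y) (α : ℝ) (hα : 0 < α)
    (hm : ∫⁻ ω, ENNReal.ofReal ((max (Y ω) 0) ^ d *
      (max (Real.log (max (Y ω) 0)) 0) ^ (((d : ℝ) - 1) / 2 + α)) ∂P < ⊤) :
    ∫⁻ t in Set.Ioi (0 : ℝ), ENNReal.ofReal (t ^ (((d : ℝ) - 1) / ((d : ℝ) + 1)) *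
      (P {ω | t < Y ω}).toReal ^ ((2 : ℝ) / ((d : ℝ) + 1))) < ⊤ := by
  have : IsProbabilityMeasure (P.map Y) := Measure.isProbabilityMeasure_map hY.aemeasurable
  obtain ⟨a, ha, hs⟩ := SG.serS d (by omega) (P.map Y)
  have e : ∀ t : ℝ, (P.map Y).real (Set.Ioi t) = (P {ω | t < Y ω}).toReal := fun t => by
    rw [Measure.real, Measure.map_apply hY measurableSet_Ioi]
    rfl
  simp only [e] at hs
  exact hs.1 (SG.summable_of_moment hd _ hα (by rwa [lintegral_map (by fun_prop) hY]) ha)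

/-- The question as posed follows from `result`. -/
theorem q1 :
    ∀ (d : ℕ), 2 ≤ d →
    ∀ (Ω : Type) [MeasurableSpace Ω] (P : Measure Ω) [IsProbabilityMeasure P]
      (X : (Fin d → ℤ) → Ω → ℝ),
      (∀ v, Measurable (X v)) →
      iIndepFun X P →
      (∀ v, IdentDistrib (X v) (X 0) P P) →
      (∃ α : ℝ, 0 < α ∧
        ∫⁻ ω, ENNReal.ofReal ((max (X 0 ω) 0) ^ d *
          (max (Real.log (max (X 0 ω) 0)) 0) ^ ((d : ℝ) + α)) ∂P < ⊤) →
      ∃ M : ℝ, ∀ᵐ ω ∂P,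
        Tendsto
          (fun n : ℕ =>
            (⨆ p : {p : Fin (n + 1) → (Fin d → ℤ) //
                p 0 = 0 ∧ Function.Injective p ∧
                ∀ i : Fin n, ∑ j, |p i.succ j - p i.castSucc j| = 1},
              ∑ i : Fin n, X (p.1 i.succ) ω) / (n : ℝ))
          atTop (𝓝 M) := by
  intro d hd Ω _ P _ X hX hind hid ⟨α, hα, hm⟩
  refine (result d hd Ω P X hX hind hid _ (fun _ _ => rfl) _ rfl).1
    (moment d hd Ω P (X 0) (hX 0) (((d : ℝ) + 1) / 2 + α) (by positivity) ?_)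
  rwa [show ((d : ℝ) - 1) / 2 + (((d : ℝ) + 1) / 2 + α) = d + α by ring]

end Pool.Agent.Results.MP_1479fb_pr.SharpGrowth
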